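import Mathlib

/-!
Row GRPN of board `nf` (helper8's file `F.lean`): if `y² = x³ + a x² + b x + c` has finitely many
solutions over a field with `2 ≠ 0` and the cubic has no root, then Mathlib's group of points is
finite of odd order.
-/

namespace Pool.NF

open Polynomial WeierstrassCurve

/-- The Weierstrass curve `y² = x³ + a x² + b x + c`. -/
def WC {K : Type*} [Field K] (a b c : K) : WeierstrassCurve K := ⟨0, a, 0, b, c⟩

/-- Statement GRPN. -/
def GRPNStmt : Prop :=
  ∀ (K : Type) [Field K], (2 : K) ≠ 0 → ∀ a b c : K,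
    Irreducible (X ^ 3 + C a * X ^ 2 + C b * X + C c : K[X]) →
    {p : K × K | p.2 ^ 2 = p.1 ^ 3 + a * p.1 ^ 2 + b * p.1 + c}.Finite →
    Finite (WC a b c).toAffine.Point ∧ Odd (Nat.card (WC a b c).toAffine.Point)

theorem no_root {K : Type*} [Field K] (a b c : K)
    (h : Irreducible (X ^ 3 + C a * X ^ 2 + C b * X + C c : K[X])) (x : K) :
    x ^ 3 + a * x ^ 2 + b * x + c ≠ 0 := by
  intro hx
  have hd : (X ^ 3 + C a * X ^ 2 + C b * X + C c : K[X]).natDegree = 3 := by
    compute_degree!
  have h1 := Polynomial.degree_eq_one_of_irreducible_of_root h (x := x) (by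
    simp only [IsRoot, eval_add, eval_mul, eval_pow, eval_X, eval_C]
    exact hx)
  have h2 : (X ^ 3 + C a * X ^ 2 + C b * X + C c : K[X]).natDegree = 1 :=
    natDegree_eq_of_degree_eq_some h1
  rw [hd] at h2
  exact absurd h2 (by norm_num)

theorem eqn_iff {K : Type*} [Field K] (a b c x y : K) :
    (WC a b c).toAffine.Equation x y ↔ y ^ 2 = x ^ 3 + a * x ^ 2 + b * x + c := by
  rw [WeierstrassCurve.Affine.equation_iff]
  simp only [WC]
  constructor
  · intro h; linear_combination h
  · intro h; linear_combination h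

/-- The point at infinity is `none`, the others are their coordinates. -/
def coord {K : Type*} [Field K] (a b c : K) :
    (WC a b c).toAffine.Point →
      Option {p : K × K // p.2 ^ 2 = p.1 ^ 3 + a * p.1 ^ 2 + b * p.1 + c}
  | .zero => none
  | .some x y h => some ⟨(x, y), (eqn_iff a b c x y).1 h.1⟩

theorem coord_inj {K : Type*} [Field K] (a b c : K) : Function.Injective (coord a b c) := by
  intro P Q h
  cases P with
  | zero =>
    cases Q with
    | zero => rfl
    | some x y hh => simp [coord] at h
  | some x y hh =>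
    cases Q with
    | zero => simp [coord] at h
    | some x' y' hh' =>
      simp only [coord, Option.some.injEq, Subtype.mk.injEq, Prod.mk.injEq] at h
      obtain ⟨rfl, rfl⟩ := h
      rfl

theorem grp_gen {K : Type*} [Field K] (h2 : (2 : K) ≠ 0) (a b c : K)
    (hirr : Irreducible (X ^ 3 + C a * X ^ 2 + C b * X + C c : K[X]))
    (hfin : {p : K × K | p.2 ^ 2 = p.1 ^ 3 + a * p.1 ^ 2 + b * p.1 + c}.Finite) :
    Finite (WC a b c).toAffine.Point ∧ Odd (Nat.card (WC a b c).toAffine.Point) := by
  classical
  haveI : Finite {p : K × K // p.2 ^ 2 = p.1 ^ 3 + a * p.1 ^ 2 + b * p.1 + c} := hfin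
  have hF : Finite (WC a b c).toAffine.Point := Finite.of_injective _ (coord_inj a b c)
  refine ⟨hF, ?_⟩
  by_contra hodd
  rw [Nat.not_odd_iff_even] at hodd
  haveI : Fact (Nat.Prime 2) := ⟨Nat.prime_two⟩
  obtain ⟨P, hP⟩ := exists_prime_addOrderOf_dvd_card' (G := (WC a b c).toAffine.Point) 2
    (even_iff_two_dvd.1 hodd)
  have hP0 : P ≠ 0 := by
    rintro rfl
    simp at hP
  have hPP : P = -P := by
    have h3 : (2 : ℕ) • P = 0 := by rw [← hP]; exact addOrderOf_nsmul_eq_zero P
    rw [two_nsmul] at h3
    exact eq_neg_of_add_eq_zero_left h3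
  cases P with
  | zero => exact hP0 rfl
  | some x y h =>
    rw [WeierstrassCurve.Affine.Point.neg_some, WeierstrassCurve.Affine.Point.some.injEq] at hPP
    have hy : y = -y := by
      have := hPP.2
      simp only [WeierstrassCurve.Affine.negY, WC] at this
      linear_combination this
    have hy0 : y = 0 := by
      have h4 : (2 : K) * y = 0 := by linear_combination hy
      exact (mul_eq_zero.1 h4).resolve_left h2
    have he := (eqn_iff a b c x y).1 h.1
    rw [hy0] at he
    apply no_root a b c hirr x
    rw [← he]; ring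

theorem grpn : GRPNStmt := fun _ _ h2 a b c hirr hfin => grp_gen h2 a b c hirr hfin

end Pool.NF

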